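import Pool.Agent.L7h64.HF.Ma2
import Pool.Agent.L7h79.HF.Ex2
import Pool.Agent.L7h79.HF.Exm
import Pool.Agent.L7h79.HF.Ext
import Pool.Agent.L7h79.HF.Sub
import Pool.Agent.L7h65.HF.Win
import Pool.Agent.L7h65.HF.Lc
import Pool.Agent.L7h29.HF.Cn2
import Pool.Agent.L7h29.HF.Cnt
import Pool.Agent.L7h88.HF.Opn
import Pool.Agent.L7h88.HF.Dsc
import Pool.Agent.L7h87.HF.La
import Pool.Agent.L7h6.HF.Lb
import Pool.Agent.L7h53.HF.Pol
import Pool.Agent.L7h21.HF.Zer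
import Pool.Agent.L7h77.OC.Trans
import Pool.Agent.L7h69.TO.Main

/-! Project HF, second step: octics `a w ^ 8 + b (x, y) w ^ 4 + c (x, y)` have at most 10 ovals. -/

set_option autoImplicit false

namespace Pool.Agent.L7h64.HF

open Pool.Agent.L7h28.HF

theorem bound10' (hSUB : S_SUB) : S_MA2 := by
  have hLA := Pool.Agent.L7h87.HF.s_LA
  have hLB := Pool.Agent.L7h6.HF.s_LB
  have hLC := Pool.Agent.L7h65.HF.s_LC
  have hZ := Pool.Agent.L7h21.HF.s_ZER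
  have hD := Pool.Agent.L7h88.HF.s_DSC
  exact s_MA2 (Pool.Agent.L7h79.HF.s_EXT hLA hLB hLC) (Pool.Agent.L7h29.HF.s_CNT hZ hD)
    (Pool.Agent.L7h88.HF.s_OPN hLA) Pool.Agent.L7h53.HF.s_POL hZ hD
    (Pool.Agent.L7h79.HF.s_EX2 (Pool.Agent.L7h79.HF.s_EXM hLA hLB hLC) hLA hSUB)
    (Pool.Agent.L7h29.HF.s_CN2 hZ hD) (Pool.Agent.L7h65.HF.s_WIN hD)

/-- the exchange of the second and third coordinate -/
def Pm : Matrix (Fin 3) (Fin 3) ℝ := !![1, 0, 0; 0, 0, 1; 0, 1, 0]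

theorem isUnit_Pm : IsUnit Pm := by
  rw [Matrix.isUnit_iff_isUnit_det]
  simp [Pm, Matrix.det_fin_three]

theorem Pm_mulVec (x y w : ℝ) : Pm.mulVec ![x, y, w] = ![x, w, y] := by
  ext i
  fin_cases i <;> simp [Pm, Matrix.mulVec, dotProduct, Fin.sum_univ_three]

theorem three' (hSUB : S_SUB) (F : MvPolynomial (Fin 3) ℝ) (k : ℕ)
    (M : Matrix (Fin 3) (Fin 3) ℝ) (hF : F.IsHomogeneous 8) (hN : Pool.Agent.L7h17.OC.Nonsing F)
    (hM : IsUnit M) (h3 : Pool.Agent.L7h69.TO.ThreeTerms 4 (Pool.Agent.L7h17.OC.change M F))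
    (hk : Pool.Agent.L7h17.OC.SplitsInto k F) : k ≤ 10 := by
  obtain ⟨t1, _, t2, t3⟩ := Pool.Agent.L7h77.OC.s_TRANS F M hM
  obtain ⟨u1, u0, u2, u3⟩ :=
    Pool.Agent.L7h77.OC.s_TRANS (Pool.Agent.L7h17.OC.change M F) Pm isUnit_Pm
  obtain ⟨a, b, c, hc, hv⟩ := h3
  refine bound10' hSUB k _ c b a (u1 (t1 hF)) (u2 (t2 hN)) ⟨hc, ?_⟩ (u3 k (t3 k hk))
  intro x y w
  rw [u0, Pm_mulVec, hv]
  have e : ∀ i, (8 - 4 - i : ℕ) = 4 - i := fun i => rfl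
  simp only [Matrix.cons_val_zero, Matrix.cons_val_one, Matrix.cons_val]
  norm_num
  ring

/-- a nonsingular real octic `a w ^ 8 + b (x, y) w ^ 4 + c (x, y)` has at most 10 ovals -/
theorem bound10 : S_MA2 := bound10' Pool.Agent.L7h79.HF.s_SUB

/-- the same in the form of `ThreeTerms 4` -/
theorem three4 (F : MvPolynomial (Fin 3) ℝ) (k : ℕ)
    (M : Matrix (Fin 3) (Fin 3) ℝ) (hF : F.IsHomogeneous 8) (hN : Pool.Agent.L7h17.OC.Nonsing F)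
    (hM : IsUnit M) (h3 : Pool.Agent.L7h69.TO.ThreeTerms 4 (Pool.Agent.L7h17.OC.change M F))
    (hk : Pool.Agent.L7h17.OC.SplitsInto k F) : k ≤ 10 :=
  three' Pool.Agent.L7h79.HF.s_SUB F k M hF hN hM h3 hk

end Pool.Agent.L7h64.HF
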