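import Pool.Agent.L7h28.HF.Stm

/-!
# Project HF, second step: at most 10 ovals instead of 12 (MP_b7f146_ag)

`D` = `dsc`. If `D α < 0` and `a C(t) < 0` for some `t` in the window, let `s < t < s'` be the zeros of `D`
next to `t`. The (at most four) special points with `τ > 0` over `s`, `s'` need not be counted: a piece
`K` with such a point over `s` contains both branches `τ ^ 4 = y1, y2` which start there, the lower one
reaches `0` between `s` and `t` (`y1 y2 = C / a < 0` at `t`), at `β`, and the upper one is positive over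
`β`; so `(β, 0)` is in `K` and `β` is not an extreme angle of `K`.
-/

set_option autoImplicit false

noncomputable section

namespace Pool.Agent.L7h64.HF

open Pool.Agent.L7h28.HF

/-- a special point of the piece `K` over the angle `θ`; those with `τ > 0` over `s`, `s'` do not
count -/
def SpX (a : ℝ) (b c : ℕ → ℝ) (s s' : ℝ) (K : Set (ℝ × ℝ)) (θ : ℝ) : Prop :=
  ((θ, (0 : ℝ)) ∈ K ∧ frm 8 c θ = 0) ∨
    (θ ≠ s ∧ θ ≠ s' ∧ ∃ τ : ℝ, 0 < τ ∧ (θ, τ) ∈ K ∧ dsc a b c θ = 0)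

/-- [SUB] 120 lines. `t` may be to the left or to the right of `s`. PROOF. For `0 ≤ u ≤ 1` let
`θ = s + u (t - s)`, `y1 = (-B - √D) / (2 a)`, `y2 = (-B + √D) / (2 a)` (`B = frm 4 b θ`, `C = frm 8 c θ`,
`D = B ^ 2 - 4 a C ≥ 0`; roots of `a y ^ 2 + B y + C`), `m = min y1 y2`, `M = max y1 y2`, continuous in
`u`. For `u = 0`: `m = M = -B / (2 a) = τ0 ^ 4 > 0` (as `a (τ0 ^ 4 + B / (2 a)) ^ 2 = G = 0`). For `u = 1`:
`m M = C / a < 0`, so `m < 0`. Let `u0` be the first zero of `m`; `0 < u0 < 1`, `m > 0` on `[0, u0)`. The paths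
`u ↦ (θ, √√m)` and `u ↦ (θ, √√M)`, `u ∈ [0, u0]`, are in the curve, begin at `(s, τ0) ∈ K`, so they are in
`K` (the `u` with values in `K`, and those with values in the rest, are two closed sets; the interval
is connected). `β = θ (u0)`; `m = 0`, `M > 0` there because `D > 0`. -/
def S_SUB : Prop := ∀ (a : ℝ) (b c : ℕ → ℝ) (K : Set (ℝ × ℝ)) (s t τ0 : ℝ), a ≠ 0 → Pc a b c K →
  s ≠ t → 0 < τ0 → (s, τ0) ∈ K → dsc a b c s = 0 →
  (∀ u : ℝ, 0 < u → u ≤ 1 → 0 < dsc a b c (s + u * (t - s))) → a * frm 8 c t < 0 →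
  ∃ u τ : ℝ, 0 < u ∧ u < 1 ∧ (s + u * (t - s), (0 : ℝ)) ∈ K ∧ 0 < τ ∧ (s + u * (t - s), τ) ∈ K

/-- [EXM] 100 lines; may assume `S_LA`, `S_LB`, `S_LC`. The part `S_EXT` of HF with the extremality of the
two angles in the conclusion: copy the proof of helper79 (`θ1` the smallest, `θ2` the largest first
coordinate of `K ∩ {α ≤ θ ≤ α + π, τ ≥ 0}`). -/
def S_EXM : Prop := ∀ (a : ℝ) (b c : ℕ → ℝ) (K : Set (ℝ × ℝ)) (α : ℝ), a ≠ 0 → NS a b c →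
  Pc a b c K → dsc a b c α < 0 → dsc a b c (α + Real.pi) < 0 →
  (∃ p ∈ K, α ≤ p.1 ∧ p.1 ≤ α + Real.pi ∧ 0 ≤ p.2) →
  ∃ θ1 θ2 : ℝ, α < θ1 ∧ θ1 < θ2 ∧ θ2 < α + Real.pi ∧ Sp a b c K θ1 ∧ Sp a b c K θ2 ∧
    ∀ θ τ : ℝ, (θ, τ) ∈ K → α ≤ θ → θ ≤ α + Real.pi → 0 ≤ τ → θ1 ≤ θ ∧ θ ≤ θ2

/-- [EX2] 100 lines; may assume `S_EXM`, `S_LA`, `S_SUB`. PROOF. `θ1`, `θ2` of `S_EXM`. (i) If `(β, 0) ∈ K`,
`(β, τ) ∈ K`, `τ > 0`, `s < β < s'`, then `θ1 < β < θ2` (`S_LA` with `ε = τ`: points of `K` with `τ' > 0` over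
`β ± δ / 2`), and `β` is of the first type (`G (β, 0) = frm 8 c β = 0`). (ii) If `K` has points with `τ > 0`
over `s` and over `s'`: `S_SUB` for `(s, t)` and for `(s', t)` gives `β < t < β'`. (iii) If only over `s`:
`S_SUB` gives `β`, and one of `θ1`, `θ2`, different from `s`, is the second one: it is `SpX` because there
is no point with `τ > 0` over `s'`. (iv) Only over `s'`: the same. (v) None: `θ1`, `θ2`. -/
def S_EX2 : Prop := ∀ (a : ℝ) (b c : ℕ → ℝ) (K : Set (ℝ × ℝ)) (α s t s' : ℝ), a ≠ 0 → NS a b c →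
  Pc a b c K → dsc a b c α < 0 → dsc a b c (α + Real.pi) < 0 → α < s → s < t → t < s' →
  s' < α + Real.pi → dsc a b c s = 0 → dsc a b c s' = 0 →
  (∀ θ, s < θ → θ < s' → 0 < dsc a b c θ) → a * frm 8 c t < 0 →
  (∃ p ∈ K, α ≤ p.1 ∧ p.1 ≤ α + Real.pi ∧ 0 ≤ p.2) →
  ∃ θ1 θ2 : ℝ, α < θ1 ∧ θ1 < θ2 ∧ θ2 < α + Real.pi ∧ SpX a b c s s' K θ1 ∧ SpX a b c s s' K θ2

/-- [CN2] 100 lines; may assume `S_ZER`, `S_DSC`. Copy of `Pool.Agent.L7h29.HF.s_CNT`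
(L7h29/HF/Cnt.lean): the second image together with `s`, `s'` (which are not in it) consists of at most 8
zeros of the discriminant, so `2 n ≤ 8 + 6`; and `2 n ≤ 6` if the first type does not occur. -/
def S_CN2 : Prop := ∀ (a : ℝ) (b c : ℕ → ℝ) (α s s' : ℝ) (n : ℕ) (K : Fin n → Set (ℝ × ℝ)), a ≠ 0 →
  NS a b c → dsc a b c α < 0 → (∀ i, Pc a b c (K i)) → (∀ i j p, p ∈ K i → p ∈ K j → i = j) →
  α < s → s < s' → s' < α + Real.pi → dsc a b c s = 0 → dsc a b c s' = 0 →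
  (∀ i, ∃ θ1 θ2 : ℝ, α < θ1 ∧ θ1 < θ2 ∧ θ2 < α + Real.pi ∧ SpX a b c s s' (K i) θ1 ∧
    SpX a b c s s' (K i) θ2) →
  n ≤ 7 ∧ ((∀ i θ, α < θ → θ < α + Real.pi → (θ, (0 : ℝ)) ∉ K i) → n ≤ 3)

/-- [WIN] 100 lines; may assume `S_DSC`. PROOF. If `frm 8 c θ0 = 0` then the derivative of `frm 8 c` at `θ0`
is not zero (`NS` at `(θ0, 0)`: `G θ 0 = frm 8 c θ`, and `∂G/∂τ = 0` at `τ = 0`), so `a * frm 8 c` takes a negative
value at some `t`; move `t` by a multiple of `π` into `[α, α + π)` (periods, `S_DSC`); `t ≠ α` because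
`4 a C(α) > B ^ 2 ≥ 0`. `D t = B ^ 2 - 4 a C > 0`. `s` = the largest zero of `D` in `[α, t]`, `s'` = the smallest in
`[t, α + π]` (`sSup`, `sInf`; continuity; `D < 0` at both ends of the window, intermediate values). -/
def S_WIN : Prop := ∀ (a : ℝ) (b c : ℕ → ℝ) (α : ℝ), a ≠ 0 → NS a b c → dsc a b c α < 0 →
  (∀ θ, frm 8 c θ ≠ 0) ∨ ∃ s t s' : ℝ, α < s ∧ s < t ∧ t < s' ∧ s' < α + Real.pi ∧
    dsc a b c s = 0 ∧ dsc a b c s' = 0 ∧ (∀ θ, s < θ → θ < s' → 0 < dsc a b c θ) ∧ a * frm 8 c t < 0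

/-- [MA2] (helper64) from `S_EXT S_CNT S_OPN S_POL S_ZER S_DSC S_EX2 S_CN2 S_WIN` -/
def S_MA2 : Prop := ∀ (k : ℕ) (F : MvPolynomial (Fin 3) ℝ) (a : ℝ) (b c : ℕ → ℝ),
  F.IsHomogeneous 8 → Pool.Agent.L7h17.OC.Nonsing F → Q4 F a b c →
  Pool.Agent.L7h17.OC.SplitsInto k F → k ≤ 10

end Pool.Agent.L7h64.HF
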